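import Mathlib

/-!
# Presentations with the tail of a Brieskorn homology sphere, up to Q**-equivalence

Copy of the library module `R_seed8/Results/MP_7840f5_gt/BrieskornTails.lean` (its main theorem is
called `mainThm` here).

For integers `p`, `q`, `r` let
`P = ⟨a_1, ..., a_g, b_1, b_2 | R_1, ..., R_h, S b_1⁻¹, b_1^p b_2^(-q), b_1^p (b_1 b_2)^(-r)⟩` and
`Q = ⟨a_1, ..., a_g | R_1, ..., R_h, S⟩`.  The question is the case `(p, q, r) = (3, 5, 2)` (binary
icosahedral tail), and `S` of finite order coprime to `6`; the starting theorem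
`BinaryIcosahedralTail` proves it for `S` of finite order prime to `3`.  The abelianization of the
group `⟨b_1, b_2 | b_1^p = b_2^q = (b_1 b_2)^r⟩` has order `|p q - p r - q r|`; when this is `1`, it is
the fundamental group of a Brieskorn homology sphere `Σ(|p|, |q|, |r|)`, as for `(3, 5, 2)`, `(3, 7, 2)`,
and all `p - r`, `q - r` with `(p - r) (q - r) = r² ± 1`.

Here all these tails are settled, in the sharp form: for which `m` (also `m = 0`, that is, infinite
order) is `P` Q**-equivalent to `Q` for all presentations and all `S` of order `m`?  In general `P` is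
reduced to `⟨a_1, ..., a_g | R_1, ..., R_h, S^(p q - p r - q r)⟩`.

Proof.  The relators `b_1^x b_2^(-y)` admit row operations on the exponents by Q-moves, since
`b_1^x = b_2^y` is central in the group generated by `b_1` and `b_2`; the last relator becomes of this form
if `b_1` and `b_2` commute as a consequence of the others, which is where the condition on the order is
used.  Conversely, without it `P` maps onto a nontrivial subgroup of `PSL(2, ℂ)` for some `S` in a cyclic
group.
-/

set_option autoImplicit false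

namespace Pool.Agent.H380BT

/-- A finite presentation with generators `a_0, ..., a_{g-1}` and relators
`rel 0, ..., rel (h-1)`, which are elements of the free group on the generators. -/
structure Pres where
  g : ℕ
  h : ℕ
  rel : Fin h → FreeGroup (Fin g)

/-- Adjoin a new (last) generator `a` together with the new (last) relator `a`. -/
def Pres.prolong (P : Pres) : Pres where
  g := P.g + 1
  h := P.h + 1
  rel := Fin.snoc (α := fun _ => FreeGroup (Fin (P.g + 1)))
    (fun j => FreeGroup.map Fin.castSucc (P.rel j)) (FreeGroup.of (Fin.last P.g))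

/-- Substitute the word `w` for the generator `a_i` in every relator. -/
def Pres.subst (P : Pres) (i : Fin P.g) (w : FreeGroup (Fin P.g)) : Pres where
  g := P.g
  h := P.h
  rel := fun j => FreeGroup.lift (Function.update FreeGroup.of i w) (P.rel j)

/-- Replace the relator `rel j` by the element `r`. -/
def Pres.replace (P : Pres) (j : Fin P.h) (r : FreeGroup (Fin P.g)) : Pres where
  g := P.g
  h := P.h
  rel := Function.update P.rel j r

/-- The elementary moves: Q-moves, Nielsen moves, prolongation and its reverse. -/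
inductive Move : Pres → Pres → Prop
  | conj (P : Pres) (j : Fin P.h) (w : FreeGroup (Fin P.g)) :
      Move P (P.replace j (w * P.rel j * w⁻¹))
  | inv (P : Pres) (j : Fin P.h) : Move P (P.replace j (P.rel j)⁻¹)
  | mulRight (P : Pres) (j k : Fin P.h) (hjk : k ≠ j) :
      Move P (P.replace j (P.rel j * P.rel k))
  | mulLeft (P : Pres) (j k : Fin P.h) (hjk : k ≠ j) :
      Move P (P.replace j (P.rel k * P.rel j))
  | nielsenInv (P : Pres) (i : Fin P.g) : Move P (P.subst i (FreeGroup.of i)⁻¹)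
  | nielsenRight (P : Pres) (i k : Fin P.g) (hik : k ≠ i) :
      Move P (P.subst i (FreeGroup.of i * FreeGroup.of k))
  | nielsenLeft (P : Pres) (i k : Fin P.g) (hik : k ≠ i) :
      Move P (P.subst i (FreeGroup.of k * FreeGroup.of i))
  | prolong (P : Pres) : Move P P.prolong
  | unprolong (P : Pres) : Move P.prolong P

/-- `P` and `Q` are Q**-equivalent: a finite sequence of moves carries `P` to `Q`. -/
def QEquiv (P Q : Pres) : Prop := Relation.ReflTransGen Move P Q

/-- `⟨a_1, ..., a_g, b_1, b_2 | R_1, ..., R_h, S b_1⁻¹, b_1^p b_2^(-q), b_1^p (b_1 b_2)^(-r)⟩`. -/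
def presP (p q r : ℤ) {g h : ℕ} (R : Fin h → FreeGroup (Fin g)) (S : FreeGroup (Fin g)) : Pres where
  g := g + 2
  h := h + 3
  rel :=
    let b₁ : FreeGroup (Fin (g + 2)) := FreeGroup.of (Fin.natAdd g 0)
    let b₂ : FreeGroup (Fin (g + 2)) := FreeGroup.of (Fin.natAdd g 1)
    Fin.append (fun j => FreeGroup.map (Fin.castAdd 2) (R j))
      ![FreeGroup.map (Fin.castAdd 2) S * b₁⁻¹,
        b₁ ^ p * b₂ ^ (-q),
        b₁ ^ p * (b₁ * b₂) ^ (-r)]

/-- `⟨a_1, ..., a_g | R_1, ..., R_h, S⟩`. -/
def presQ {g h : ℕ} (R : Fin h → FreeGroup (Fin g)) (S : FreeGroup (Fin g)) : Pres where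
  g := g
  h := h + 1
  rel := Fin.snoc (α := fun _ => FreeGroup (Fin g)) R S

/-! ### Q-moves -/

section QM

variable {g h : ℕ}

/-- Reachability with fixed numbers of generators and relators. -/
def Reach (A B : Fin h → FreeGroup (Fin g)) : Prop := QEquiv ⟨g, h, A⟩ ⟨g, h, B⟩

lemma Reach.trans {A B C : Fin h → FreeGroup (Fin g)} (h1 : Reach A B) (h2 : Reach B C) :
    Reach A C := Relation.ReflTransGen.trans h1 h2

lemma reach_conj (A : Fin h → FreeGroup (Fin g)) (j : Fin h) (w : FreeGroup (Fin g)) :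
    Reach A (Function.update A j (w * A j * w⁻¹)) :=
  Relation.ReflTransGen.single (Move.conj ⟨g, h, A⟩ j w)

lemma reach_inv (A : Fin h → FreeGroup (Fin g)) (j : Fin h) :
    Reach A (Function.update A j (A j)⁻¹) :=
  Relation.ReflTransGen.single (Move.inv ⟨g, h, A⟩ j)

lemma reach_mul (A : Fin h → FreeGroup (Fin g)) (j k : Fin h) (hjk : k ≠ j) :
    Reach A (Function.update A j (A j * A k)) :=
  Relation.ReflTransGen.single (Move.mulRight ⟨g, h, A⟩ j k hjk)

lemma reach_mul_conj (A : Fin h → FreeGroup (Fin g)) (j k : Fin h) (hjk : k ≠ j)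
    (w : FreeGroup (Fin g)) :
    Reach A (Function.update A j (A j * (w * A k * w⁻¹))) := by
  have h1 := reach_conj A k w
  have h2 := reach_mul (Function.update A k (w * A k * w⁻¹)) j k hjk
  have h3 := reach_conj (Function.update (Function.update A k (w * A k * w⁻¹)) j
    (Function.update A k (w * A k * w⁻¹) j * Function.update A k (w * A k * w⁻¹) k)) k w⁻¹
  have h4 := (h1.trans h2).trans h3
  convert h4 using 1
  funext i
  by_cases hi : i = j
  · subst hi
    simp [Function.update_of_ne hjk, Function.update_of_ne hjk.symm, mul_assoc]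
  · by_cases hk : i = k
    · subst hk
      simp [Function.update_of_ne hjk, mul_assoc]
    · simp [Function.update_of_ne hi, Function.update_of_ne hk]

lemma reach_mul_conj_inv (A : Fin h → FreeGroup (Fin g)) (j k : Fin h) (hjk : k ≠ j)
    (w : FreeGroup (Fin g)) :
    Reach A (Function.update A j (A j * (w * (A k)⁻¹ * w⁻¹))) := by
  have h1 := reach_inv A k
  have h2 := reach_mul_conj (Function.update A k (A k)⁻¹) j k hjk w
  have h3 := reach_inv (Function.update (Function.update A k (A k)⁻¹) j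
    (Function.update A k (A k)⁻¹ j * (w * Function.update A k (A k)⁻¹ k * w⁻¹))) k
  have h4 := (h1.trans h2).trans h3
  convert h4 using 1
  funext i
  by_cases hi : i = j
  · subst hi
    simp [Function.update_of_ne hjk, Function.update_of_ne hjk.symm]
  · by_cases hk : i = k
    · subst hk
      simp [Function.update_of_ne hjk]
    · simp [Function.update_of_ne hi, Function.update_of_ne hk]

/-- Multiplying the relator `j` by an element of the normal closure of the other relators. -/
lemma reach_normal (A : Fin h → FreeGroup (Fin g)) (j : Fin h) (w : FreeGroup (Fin g))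
    (hw : w ∈ Subgroup.normalClosure (A '' {k | k ≠ j})) :
    ∀ r : FreeGroup (Fin g), Reach (Function.update A j r) (Function.update A j (r * w)) ∧
      Reach (Function.update A j r) (Function.update A j (r * w⁻¹)) := by
  unfold Subgroup.normalClosure at hw
  induction hw using Subgroup.closure_induction with
  | mem x hx =>
    intro r
    rw [Group.mem_conjugatesOfSet_iff] at hx
    obtain ⟨a, ⟨k, hk, rfl⟩, hax⟩ := hx
    rw [isConj_iff] at hax
    obtain ⟨c, rfl⟩ := hax
    have hk' : k ≠ j := hk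
    constructor
    · have := reach_mul_conj (Function.update A j r) j k hk' c
      simpa [Function.update_of_ne hk'] using this
    · have := reach_mul_conj_inv (Function.update A j r) j k hk' c
      simpa [Function.update_of_ne hk', mul_assoc] using this
  | one =>
    intro r
    simp only [mul_one, inv_one]
    exact ⟨Relation.ReflTransGen.refl, Relation.ReflTransGen.refl⟩
  | mul x y _ _ hx hy =>
    intro r
    constructor
    · have := ((hx r).1).trans ((hy (r * x)).1)
      rwa [mul_assoc] at this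
    · have := ((hy r).2).trans ((hx (r * y⁻¹)).2)
      rw [mul_assoc, ← mul_inv_rev] at this
      exact this
  | inv x _ hx =>
    intro r
    refine ⟨(hx r).2, ?_⟩
    rw [inv_inv]
    exact (hx r).1

lemma reach_of_normal {A B : Fin h → FreeGroup (Fin g)} (j : Fin h)
    (hAB : ∀ k, k ≠ j → A k = B k)
    (hw : (A j)⁻¹ * B j ∈ Subgroup.normalClosure (A '' {k | k ≠ j})) : Reach A B := by
  have h1 := (reach_normal A j _ hw (A j)).1
  rw [Function.update_eq_self] at h1
  convert h1 using 1
  funext i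
  by_cases hi : i = j
  · subst hi
    simp
  · rw [Function.update_of_ne hi, hAB i hi]

end QM

/-! ### The presentations -/

section Tail

variable {g h : ℕ}

/-- Relators `R_1, ..., R_h, x, y, z` on the generators `a_1, ..., a_g, b_1, b_2`. -/
def T (R : Fin h → FreeGroup (Fin g)) (x y z : FreeGroup (Fin (g + 2))) :
    Fin (h + 3) → FreeGroup (Fin (g + 2)) :=
  Fin.append (fun j => FreeGroup.map (Fin.castAdd 2) (R j)) ![x, y, z]

variable (R : Fin h → FreeGroup (Fin g)) (x y z x' y' z' : FreeGroup (Fin (g + 2)))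

lemma T_R (j : Fin h) : T R x y z (Fin.castAdd 3 j) = FreeGroup.map (Fin.castAdd 2) (R j) := by
  simp [T]

lemma T_0 : T R x y z (Fin.natAdd h 0) = x := by simp [T]
lemma T_1 : T R x y z (Fin.natAdd h 1) = y := by simp [T]
lemma T_2 : T R x y z (Fin.natAdd h 2) = z := by simp [T]

lemma castAdd_ne (j : Fin h) (i : Fin 3) : Fin.castAdd 3 j ≠ Fin.natAdd h i := by
  intro hj
  have := congrArg Fin.val hj
  simp at this
  omega

lemma natAdd_ne {i i' : Fin 3} (hi : i ≠ i') : Fin.natAdd h i ≠ Fin.natAdd h i' := by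
  intro hj
  exact hi (by simpa using hj)

/-- Change the relator number `h + i`. -/
lemma reach_T {x y z x' y' z' : FreeGroup (Fin (g + 2))} (i : Fin 3)
    (h0 : i ≠ 0 → x = x') (h1 : i ≠ 1 → y = y') (h2 : i ≠ 2 → z = z')
    (N : Subgroup (FreeGroup (Fin (g + 2))))
    (hN : N = Subgroup.normalClosure (T R x y z '' {k | k ≠ Fin.natAdd h i}))
    (hw : ((![x, y, z] : Fin 3 → FreeGroup (Fin (g + 2))) i)⁻¹ *
      (![x', y', z'] : Fin 3 → FreeGroup (Fin (g + 2))) i ∈ N) :
    Reach (T R x y z) (T R x' y' z') := by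
  subst hN
  refine reach_of_normal (Fin.natAdd h i) ?_ ?_
  · intro k hk
    induction k using Fin.addCases with
    | left k => rw [T_R, T_R]
    | right k =>
      have hki : i ≠ k := fun hh => hk (by rw [hh])
      fin_cases k
      · simpa [T] using h0 hki
      · simpa [T] using h1 hki
      · simpa [T] using h2 hki
  · have e : ∀ a b c : FreeGroup (Fin (g + 2)), T R a b c (Fin.natAdd h i) =
        (![a, b, c] : Fin 3 → FreeGroup (Fin (g + 2))) i := by
      intro a b c; simp [T]
    rw [e, e]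
    exact hw

/-- In the quotient by the normal closure of a set all its members are trivial. -/
lemma mk_eq_one {G : Type*} [Group G] (s : Set G) (x : G) (hx : x ∈ s) :
    (QuotientGroup.mk' (Subgroup.normalClosure s)) x = 1 := by
  rw [QuotientGroup.mk'_apply, QuotientGroup.eq_one_iff]
  exact Subgroup.subset_normalClosure hx

lemma mem_of_mk {G : Type*} [Group G] (s : Set G) (x : G)
    (hx : (QuotientGroup.mk' (Subgroup.normalClosure s)) x = 1) :
    x ∈ Subgroup.normalClosure s := by
  rwa [QuotientGroup.mk'_apply, QuotientGroup.eq_one_iff] at hx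


lemma reach_hom {x y z x' y' z' : FreeGroup (Fin (g + 2))} (i : Fin 3)
    (h0 : i ≠ 0 → x = x') (h1 : i ≠ 1 → y = y') (h2 : i ≠ 2 → z = z')
    (hq : ∀ (H : Type) [Group H] (q : FreeGroup (Fin (g + 2)) →* H),
      (∀ j, q (FreeGroup.map (Fin.castAdd 2) (R j)) = 1) → (i ≠ 0 → q x = 1) → (i ≠ 1 → q y = 1) →
      (i ≠ 2 → q z = 1) → q ((![x, y, z] : Fin 3 → FreeGroup (Fin (g + 2))) i) =
        q ((![x', y', z'] : Fin 3 → FreeGroup (Fin (g + 2))) i)) :
    Reach (T R x y z) (T R x' y' z') := by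
  refine reach_T R i h0 h1 h2 _ rfl ?_
  apply mem_of_mk
  set A := T R x y z '' {k | k ≠ Fin.natAdd h i} with hA
  set q := QuotientGroup.mk' (Subgroup.normalClosure A) with hqd
  rw [map_mul, map_inv, inv_mul_eq_one]
  refine hq _ q (fun j => mk_eq_one A _ ⟨Fin.castAdd 3 j, castAdd_ne j i, T_R ..⟩)
    (fun hi => mk_eq_one A _ ⟨Fin.natAdd h 0, natAdd_ne (Ne.symm hi), T_0 ..⟩)
    (fun hi => mk_eq_one A _ ⟨Fin.natAdd h 1, natAdd_ne (Ne.symm hi), T_1 ..⟩)
    (fun hi => mk_eq_one A _ ⟨Fin.natAdd h 2, natAdd_ne (Ne.symm hi), T_2 ..⟩)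

lemma reach0 {x y z x' : FreeGroup (Fin (g + 2))}
    (hq : ∀ (H : Type) [Group H] (q : FreeGroup (Fin (g + 2)) →* H),
      (∀ j, q (FreeGroup.map (Fin.castAdd 2) (R j)) = 1) → q y = 1 → q z = 1 → q x = q x') :
    Reach (T R x y z) (T R x' y z) :=
  reach_hom R 0 (fun hh => absurd rfl hh) (fun _ => rfl) (fun _ => rfl)
    (fun H _ q hR _ h1 h2 => hq H q hR (h1 (by decide)) (h2 (by decide)))

lemma reach1 {x y z y' : FreeGroup (Fin (g + 2))}
    (hq : ∀ (H : Type) [Group H] (q : FreeGroup (Fin (g + 2)) →* H),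
      (∀ j, q (FreeGroup.map (Fin.castAdd 2) (R j)) = 1) → q x = 1 → q z = 1 → q y = q y') :
    Reach (T R x y z) (T R x y' z) :=
  reach_hom R 1 (fun _ => rfl) (fun hh => absurd rfl hh) (fun _ => rfl)
    (fun H _ q hR h0 _ h2 => hq H q hR (h0 (by decide)) (h2 (by decide)))

lemma reach2 {x y z z' : FreeGroup (Fin (g + 2))}
    (hq : ∀ (H : Type) [Group H] (q : FreeGroup (Fin (g + 2)) →* H),
      (∀ j, q (FreeGroup.map (Fin.castAdd 2) (R j)) = 1) → q x = 1 → q y = 1 → q z = q z') :
    Reach (T R x y z) (T R x y z') :=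
  reach_hom R 2 (fun _ => rfl) (fun _ => rfl) (fun hh => absurd rfl hh)
    (fun H _ q hR h0 h1 _ => hq H q hR (h0 (by decide)) (h1 (by decide)))

lemma T_up0 : Function.update (T R x y z) (Fin.natAdd h 0) x' = T R x' y z := by
  funext k
  induction k using Fin.addCases with
  | left k => rw [Function.update_of_ne (castAdd_ne k 0), T_R, T_R]
  | right k =>
    fin_cases k
    · simp [T]
    · rw [Function.update_of_ne (natAdd_ne (by decide))]
      simp [T]
    · rw [Function.update_of_ne (natAdd_ne (by decide))]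
      simp [T]

lemma T_up1 : Function.update (T R x y z) (Fin.natAdd h 1) y' = T R x y' z := by
  funext k
  induction k using Fin.addCases with
  | left k => rw [Function.update_of_ne (castAdd_ne k 1), T_R, T_R]
  | right k =>
    fin_cases k
    · rw [Function.update_of_ne (natAdd_ne (by decide))]
      simp [T]
    · simp [T]
    · rw [Function.update_of_ne (natAdd_ne (by decide))]
      simp [T]

lemma T_up2 : Function.update (T R x y z) (Fin.natAdd h 2) z' = T R x y z' := by
  funext k
  induction k using Fin.addCases with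
  | left k => rw [Function.update_of_ne (castAdd_ne k 2), T_R, T_R]
  | right k =>
    fin_cases k
    · rw [Function.update_of_ne (natAdd_ne (by decide))]
      simp [T]
    · rw [Function.update_of_ne (natAdd_ne (by decide))]
      simp [T]
    · simp [T]

lemma inv1 : Reach (T R x y z) (T R x y⁻¹ z) := by
  have h1 := reach_inv (T R x y z) (Fin.natAdd h 1)
  rwa [T_1, T_up1] at h1

lemma conj0 (c : FreeGroup (Fin (g + 2))) : Reach (T R x y z) (T R (c * x * c⁻¹) y z) := by
  have h1 := reach_conj (T R x y z) (Fin.natAdd h 0) c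
  rwa [T_0, T_up0] at h1

lemma conj2 (c : FreeGroup (Fin (g + 2))) : Reach (T R x y z) (T R x y (c * z * c⁻¹)) := by
  have h1 := reach_conj (T R x y z) (Fin.natAdd h 2) c
  rwa [T_2, T_up2] at h1

lemma swap01 : Reach (T R x y z) (T R y x z) := by
  have h1 : Reach (T R x y z) (T R (x * y) y z) :=
    reach0 R (fun H _ q _ hy _ => by rw [map_mul, hy, mul_one])
  have h2 : Reach (T R (x * y) y z) (T R (x * y) x⁻¹ z) :=
    reach1 R (fun H _ q _ hx _ => by
      rw [map_mul] at hx
      rw [map_inv]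
      exact eq_inv_of_mul_eq_one_right hx)
  have h3 : Reach (T R (x * y) x⁻¹ z) (T R y x⁻¹ z) :=
    reach0 R (fun H _ q _ hy _ => by
      rw [map_inv, inv_eq_one] at hy
      rw [map_mul, hy, one_mul])
  have h4 := inv1 R y x⁻¹ z
  rw [inv_inv] at h4
  exact ((h1.trans h2).trans h3).trans h4

/-! ### Row operations -/

/-- `b₁` -/
abbrev b1 (g : ℕ) : FreeGroup (Fin (g + 2)) := FreeGroup.of (Fin.natAdd g 0)

/-- `b₂` -/
abbrev b2 (g : ℕ) : FreeGroup (Fin (g + 2)) := FreeGroup.of (Fin.natAdd g 1)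

/-- `b₁^x b₂^(-y)` -/
def w (g : ℕ) (x y : ℤ) : FreeGroup (Fin (g + 2)) := b1 g ^ x * b2 g ^ (-y)

lemma row_aux {H : Type} [Group H] (q : FreeGroup (Fin (g + 2)) →* H) (x1 y1 x2 y2 k : ℤ)
    (h2 : q (w g x2 y2) = 1) : q (w g x1 y1) = q (w g (x1 + k * x2) (y1 + k * y2)) := by
  unfold w at h2 ⊢
  rw [map_mul, map_zpow, map_zpow] at h2 ⊢
  have h3 : q (b1 g) ^ x2 = q (b2 g) ^ y2 := by
    rw [zpow_neg] at h2
    exact mul_inv_eq_one.1 h2
  rw [map_mul, map_zpow, map_zpow]
  have e1 : q (b1 g) ^ (x1 + k * x2) = q (b1 g) ^ x1 * q (b2 g) ^ (y2 * k) := by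
    rw [zpow_add, mul_comm k x2, zpow_mul, h3, ← zpow_mul]
  have e2 : q (b2 g) ^ (-(y1 + k * y2)) = q (b2 g) ^ (-(y2 * k)) * q (b2 g) ^ (-y1) := by
    rw [← zpow_add]
    congr 1
    ring
  rw [e1, e2, mul_assoc, ← mul_assoc (q (b2 g) ^ (y2 * k)), ← zpow_add, add_neg_cancel, zpow_zero,
    one_mul]

variable (c : FreeGroup (Fin (g + 2)))

lemma row1 (x1 y1 x2 y2 k : ℤ) : Reach (T R c (w g x1 y1) (w g x2 y2))
    (T R c (w g (x1 + k * x2) (y1 + k * y2)) (w g x2 y2)) :=
  reach1 R (fun _ _ q _ _ h2 => row_aux q x1 y1 x2 y2 k h2)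

lemma row2 (x1 y1 x2 y2 k : ℤ) : Reach (T R c (w g x1 y1) (w g x2 y2))
    (T R c (w g x1 y1) (w g (x2 + k * x1) (y2 + k * y1))) :=
  reach2 R (fun _ _ q _ _ h1 => row_aux q x2 y2 x1 y1 k h1)

lemma rot (x1 y1 x2 y2 : ℤ) : Reach (T R c (w g x1 y1) (w g x2 y2))
    (T R c (w g x2 y2) (w g (-x1) (-y1))) := by
  have h1 := row1 R c x1 y1 x2 y2 1
  have h2 := row2 R c (x1 + 1 * x2) (y1 + 1 * y2) x2 y2 (-1)
  have h3 := row1 R c (x1 + 1 * x2) (y1 + 1 * y2) (x2 + -1 * (x1 + 1 * x2))
    (y2 + -1 * (y1 + 1 * y2)) 1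
  have h4 := (h1.trans h2).trans h3
  have e1 : x2 + -1 * (x1 + 1 * x2) = -x1 := by ring
  have e2 : y2 + -1 * (y1 + 1 * y2) = -y1 := by ring
  rw [e1, e2] at h4
  have e3 : x1 + 1 * x2 + 1 * -x1 = x2 := by ring
  have e4 : y1 + 1 * y2 + 1 * -y1 = y2 := by ring
  rw [e3, e4] at h4
  exact h4

lemma euclid (n : ℕ) : ∀ x1 y1 x2 y2 : ℤ, y2.natAbs ≤ n → IsCoprime y1 y2 →
    ∃ x : ℤ, Reach (T R c (w g x1 y1) (w g x2 y2))
      (T R c (w g (x1 * y2 - x2 * y1) 0) (w g x 1)) := by
  induction n with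
  | zero =>
    intro x1 y1 x2 y2 hn hc
    have hy2 : y2 = 0 := by omega
    subst hy2
    rw [isCoprime_zero_right, Int.isUnit_iff] at hc
    rcases hc with rfl | rfl
    · have h1 := rot R c x1 1 x2 0
      have h2 := rot R c x2 0 (-x1) (-1)
      have h3 := rot R c (-x1) (-1) (-x2) (-0)
      rw [neg_neg, neg_neg] at h3
      refine ⟨x1, ?_⟩
      have e : x1 * 0 - x2 * 1 = -x2 := by ring
      rw [e]
      have h4 := (h1.trans h2).trans h3
      rw [neg_zero] at h4
      exact h4
    · have h1 := rot R c x1 (-1) x2 0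
      rw [neg_neg] at h1
      refine ⟨-x1, ?_⟩
      have e : x1 * 0 - x2 * -1 = x2 := by ring
      rw [e]
      exact h1
  | succ n ih =>
    intro x1 y1 x2 y2 hn hc
    by_cases hy2 : y2 = 0
    · subst hy2
      rw [isCoprime_zero_right, Int.isUnit_iff] at hc
      rcases hc with rfl | rfl
      · have h1 := rot R c x1 1 x2 0
        have h2 := rot R c x2 0 (-x1) (-1)
        have h3 := rot R c (-x1) (-1) (-x2) (-0)
        rw [neg_neg, neg_neg] at h3
        refine ⟨x1, ?_⟩
        have e : x1 * 0 - x2 * 1 = -x2 := by ring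
        rw [e]
        have h4 := (h1.trans h2).trans h3
        rw [neg_zero] at h4
        exact h4
      · have h1 := rot R c x1 (-1) x2 0
        rw [neg_neg] at h1
        refine ⟨-x1, ?_⟩
        have e : x1 * 0 - x2 * -1 = x2 := by ring
        rw [e]
        exact h1
    · have h1 := row1 R c x1 y1 x2 y2 (-(y1 / y2))
      have e1 : y1 + -(y1 / y2) * y2 = y1 % y2 := by
        rw [Int.emod_def]
        ring
      rw [e1] at h1
      have h2 := rot R c (x1 + -(y1 / y2) * x2) (y1 % y2) x2 y2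
      have hlt : (y1 % y2).natAbs < y2.natAbs := by
        have h3 := Int.emod_nonneg y1 hy2
        have h4 := Int.emod_lt_abs y1 hy2
        rw [Int.abs_eq_natAbs] at h4
        omega
      have hc' : IsCoprime y2 (-(y1 % y2)) := by
        rw [IsCoprime.neg_right_iff, Int.emod_def]
        have h3 := hc.symm.add_mul_left_right (-(y1 / y2))
        have e2 : y1 + y2 * -(y1 / y2) = y1 - y2 * (y1 / y2) := by ring
        rwa [e2] at h3
      obtain ⟨x, h3⟩ := ih x2 y2 (-(x1 + -(y1 / y2) * x2)) (-(y1 % y2)) (by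
        rw [Int.natAbs_neg]
        omega) hc'
      refine ⟨x, ?_⟩
      have e2 : x2 * -(y1 % y2) - -(x1 + -(y1 / y2) * x2) * y2 = x1 * y2 - x2 * y1 := by
        rw [← e1]
        ring
      rw [e2] at h3
      exact (h1.trans h2).trans h3


end Tail

/-! ### Every Q**-transformation can be reversed -/

section Rev

variable {g h : ℕ}

/-- The substitution `a_i ↦ w`. -/
abbrev sub (i : Fin g) (w : FreeGroup (Fin g)) : FreeGroup (Fin g) →* FreeGroup (Fin g) :=
  FreeGroup.lift (Function.update FreeGroup.of i w)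

lemma reach_subInv (A : Fin h → FreeGroup (Fin g)) (i : Fin g) :
    Reach A (fun j => sub i (FreeGroup.of i)⁻¹ (A j)) :=
  Relation.ReflTransGen.single (Move.nielsenInv ⟨g, h, A⟩ i)

lemma reach_subRight (A : Fin h → FreeGroup (Fin g)) (i k : Fin g) (hik : k ≠ i) :
    Reach A (fun j => sub i (FreeGroup.of i * FreeGroup.of k) (A j)) :=
  Relation.ReflTransGen.single (Move.nielsenRight ⟨g, h, A⟩ i k hik)

lemma reach_subLeft (A : Fin h → FreeGroup (Fin g)) (i k : Fin g) (hik : k ≠ i) :
    Reach A (fun j => sub i (FreeGroup.of k * FreeGroup.of i) (A j)) :=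
  Relation.ReflTransGen.single (Move.nielsenLeft ⟨g, h, A⟩ i k hik)

lemma sub_inv_inv (i : Fin g) :
    (sub i (FreeGroup.of i)⁻¹).comp (sub i (FreeGroup.of i)⁻¹) = MonoidHom.id _ := by
  ext l
  by_cases hl : l = i
  · subst hl; simp
  · simp [Function.update_of_ne hl]

lemma sub_right_rev (i k : Fin g) (hik : k ≠ i) :
    (sub k (FreeGroup.of k)⁻¹).comp ((sub i (FreeGroup.of i * FreeGroup.of k)).comp
      ((sub k (FreeGroup.of k)⁻¹).comp (sub i (FreeGroup.of i * FreeGroup.of k)))) =
      MonoidHom.id _ := by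
  ext l
  by_cases hl : l = i
  · subst hl; simp [Function.update_of_ne hik, Function.update_of_ne hik.symm]
  · by_cases hk : l = k
    · subst hk; simp [Function.update_of_ne hik]
    · simp [Function.update_of_ne hl, Function.update_of_ne hk]

lemma sub_left_rev (i k : Fin g) (hik : k ≠ i) :
    (sub k (FreeGroup.of k)⁻¹).comp ((sub i (FreeGroup.of k * FreeGroup.of i)).comp
      ((sub k (FreeGroup.of k)⁻¹).comp (sub i (FreeGroup.of k * FreeGroup.of i)))) =
      MonoidHom.id _ := by
  ext l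
  by_cases hl : l = i
  · subst hl; simp [Function.update_of_ne hik, Function.update_of_ne hik.symm]
  · by_cases hk : l = k
    · subst hk; simp [Function.update_of_ne hik]
    · simp [Function.update_of_ne hl, Function.update_of_ne hk]

end Rev

lemma Move.symm {P Q : Pres} (hPQ : Move P Q) : QEquiv Q P := by
  induction hPQ with
  | conj P j w =>
    obtain ⟨g, h, A⟩ := P
    have h1 := reach_conj (Function.update A j (w * A j * w⁻¹)) j w⁻¹
    have h2 : Reach (Function.update A j (w * A j * w⁻¹)) A := by simpa [mul_assoc] using h1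
    exact h2
  | inv P j =>
    obtain ⟨g, h, A⟩ := P
    have h1 := reach_inv (Function.update A j (A j)⁻¹) j
    have h2 : Reach (Function.update A j (A j)⁻¹) A := by simpa using h1
    exact h2
  | mulRight P j k hjk =>
    obtain ⟨g, h, A⟩ := P
    have h1 := reach_mul_conj_inv (Function.update A j (A j * A k)) j k hjk 1
    have h2 : Reach (Function.update A j (A j * A k)) A := by
      simpa [Function.update_of_ne hjk] using h1
    exact h2
  | mulLeft P j k hjk =>
    obtain ⟨g, h, A⟩ := P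
    have h1 := reach_mul_conj_inv (Function.update A j (A k * A j)) j k hjk (A j)⁻¹
    have h2 : Reach (Function.update A j (A k * A j)) A := by
      simpa [Function.update_of_ne hjk, mul_assoc] using h1
    exact h2
  | nielsenInv P i =>
    obtain ⟨g, h, A⟩ := P
    have h1 := reach_subInv (fun j => sub i (FreeGroup.of i)⁻¹ (A j)) i
    have h2 : (fun j => sub i (FreeGroup.of i)⁻¹ (sub i (FreeGroup.of i)⁻¹ (A j))) = A := by
      funext j
      exact DFunLike.congr_fun (sub_inv_inv i) (A j)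
    rw [h2] at h1
    exact h1
  | nielsenRight P i k hik =>
    obtain ⟨g, h, A⟩ := P
    have h1 := ((reach_subInv (fun j => sub i (FreeGroup.of i * FreeGroup.of k) (A j)) k).trans
      (reach_subRight _ i k hik)).trans (reach_subInv _ k)
    have h2 : (fun j => sub k (FreeGroup.of k)⁻¹ (sub i (FreeGroup.of i * FreeGroup.of k)
        (sub k (FreeGroup.of k)⁻¹ (sub i (FreeGroup.of i * FreeGroup.of k) (A j))))) = A := by
      funext j
      exact DFunLike.congr_fun (sub_right_rev i k hik) (A j)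
    rw [h2] at h1
    exact h1
  | nielsenLeft P i k hik =>
    obtain ⟨g, h, A⟩ := P
    have h1 := ((reach_subInv (fun j => sub i (FreeGroup.of k * FreeGroup.of i) (A j)) k).trans
      (reach_subLeft _ i k hik)).trans (reach_subInv _ k)
    have h2 : (fun j => sub k (FreeGroup.of k)⁻¹ (sub i (FreeGroup.of k * FreeGroup.of i)
        (sub k (FreeGroup.of k)⁻¹ (sub i (FreeGroup.of k * FreeGroup.of i) (A j))))) = A := by
      funext j
      exact DFunLike.congr_fun (sub_left_rev i k hik) (A j)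
    rw [h2] at h1
    exact h1
  | prolong P => exact Relation.ReflTransGen.single (Move.unprolong P)
  | unprolong P => exact Relation.ReflTransGen.single (Move.prolong P)

lemma QEquiv.symm {P Q : Pres} (hPQ : QEquiv P Q) : QEquiv Q P := by
  induction hPQ with
  | refl => exact Relation.ReflTransGen.refl
  | tail _ hm ih => exact Relation.ReflTransGen.trans hm.symm ih


/-! ### Elimination of the new generators -/

section Elim

variable {g h : ℕ}

lemma sub_cast (i : Fin 2) (v : FreeGroup (Fin (g + 2))) (W : FreeGroup (Fin g)) :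
    sub (Fin.natAdd g i) v (FreeGroup.map (Fin.castAdd 2) W) = FreeGroup.map (Fin.castAdd 2) W := by
  have h1 : (sub (Fin.natAdd g i) v).comp (FreeGroup.map (Fin.castAdd 2)) =
      FreeGroup.map (Fin.castAdd 2) := by
    ext l
    have hl : Fin.castAdd 2 l ≠ Fin.natAdd g i := by
      intro hj
      have := congrArg Fin.val hj
      simp at this
      omega
    simp [Function.update_of_ne hl]
  exact DFunLike.congr_fun h1 W

/-- the substitution `b_i ↦ b_i W` -/
abbrev sw (i : Fin 2) (W : FreeGroup (Fin g)) : FreeGroup (Fin (g + 2)) →* FreeGroup (Fin (g + 2)) :=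
  sub (Fin.natAdd g i) (FreeGroup.of (Fin.natAdd g i) * FreeGroup.map (Fin.castAdd 2) W)

lemma sw_mul (i : Fin 2) (V W : FreeGroup (Fin g)) : (sw i V).comp (sw i W) = sw i (V * W) := by
  ext l
  by_cases hl : l = Fin.natAdd g i
  · subst hl
    simp only [MonoidHom.comp_apply, FreeGroup.lift_apply_of, Function.update_self, map_mul]
    rw [sub_cast]
    simp [mul_assoc]
  · simp [Function.update_of_ne hl]

lemma sw_one (i : Fin 2) : sw (g := g) i 1 = MonoidHom.id _ := by
  ext l
  by_cases hl : l = Fin.natAdd g i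
  · subst hl; simp
  · simp [Function.update_of_ne hl]

lemma reach_sw (i : Fin 2) (W : FreeGroup (Fin g)) : ∀ A : Fin h → FreeGroup (Fin (g + 2)),
    Reach A (fun j => sw i W (A j)) := by
  induction W using FreeGroup.induction_on with
  | C1 =>
    intro A
    rw [sw_one]
    exact Relation.ReflTransGen.refl
  | of k =>
    intro A
    have hk : Fin.castAdd 2 k ≠ Fin.natAdd g i := by
      intro hj
      have := congrArg Fin.val hj
      simp at this
      omega
    have h1 := reach_subRight A (Fin.natAdd g i) (Fin.castAdd 2 k) hk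
    have e : sw i (FreeGroup.of k) = sub (Fin.natAdd g i)
        (FreeGroup.of (Fin.natAdd g i) * FreeGroup.of (Fin.castAdd 2 k)) := by
      unfold sw
      rw [FreeGroup.map.of]
    rw [e]
    exact h1
  | inv_of k hk =>
    intro A
    have h1 := hk (fun j => sw i (FreeGroup.of k)⁻¹ (A j))
    have e : (fun j => sw i (FreeGroup.of k) (sw i (FreeGroup.of k)⁻¹ (A j))) = A := by
      funext j
      have := DFunLike.congr_fun (sw_mul i (FreeGroup.of k) (FreeGroup.of k)⁻¹) (A j)
      rw [mul_inv_cancel, sw_one] at this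
      exact this
    rw [e] at h1
    exact QEquiv.symm h1
  | mul V W hV hW =>
    intro A
    have h1 := (hW A).trans (hV _)
    have e : (fun j => sw i V (sw i W (A j))) = fun j => sw i (V * W) (A j) := by
      funext j
      exact DFunLike.congr_fun (sw_mul i V W) (A j)
    rw [e] at h1
    exact h1

variable (R : Fin h → FreeGroup (Fin g)) (x y z : FreeGroup (Fin (g + 2)))

lemma sub_T (i : Fin 2) (v : FreeGroup (Fin (g + 2))) :
    (fun j => sub (Fin.natAdd g i) v (T R x y z j)) =
      T R (sub (Fin.natAdd g i) v x) (sub (Fin.natAdd g i) v y) (sub (Fin.natAdd g i) v z) := by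
  funext k
  induction k using Fin.addCases with
  | left k => rw [T_R, T_R, sub_cast]
  | right k => fin_cases k <;> simp [T]

/-- `W b₁⁻¹` becomes `b₁` -/
lemma elim1 (W V : FreeGroup (Fin g)) (Z : FreeGroup (Fin (g + 2)))
    (hZ : ∀ v, sub (Fin.natAdd g 0) v Z = Z) :
    Reach (T R (FreeGroup.map (Fin.castAdd 2) W * (b1 g)⁻¹) (FreeGroup.map (Fin.castAdd 2) V) Z)
      (T R (b1 g) (FreeGroup.map (Fin.castAdd 2) V) Z) := by
  have h1 := reach_subInv (T R (FreeGroup.map (Fin.castAdd 2) W * (b1 g)⁻¹)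
    (FreeGroup.map (Fin.castAdd 2) V) Z) (Fin.natAdd g 0)
  rw [sub_T, hZ, sub_cast] at h1
  have e1 : sub (Fin.natAdd g 0) (FreeGroup.of (Fin.natAdd g 0))⁻¹
      (FreeGroup.map (Fin.castAdd 2) W * (b1 g)⁻¹) = FreeGroup.map (Fin.castAdd 2) W * b1 g := by
    rw [map_mul, sub_cast]
    simp
  rw [e1] at h1
  have h2 := conj0 R (FreeGroup.map (Fin.castAdd 2) W * b1 g) (FreeGroup.map (Fin.castAdd 2) V) Z
    (b1 g)
  have e2 : b1 g * (FreeGroup.map (Fin.castAdd 2) W * b1 g) * (b1 g)⁻¹ =
      b1 g * FreeGroup.map (Fin.castAdd 2) W := by group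
  rw [e2] at h2
  have h3 := reach_sw 0 W⁻¹ (T R (b1 g * FreeGroup.map (Fin.castAdd 2) W)
    (FreeGroup.map (Fin.castAdd 2) V) Z)
  unfold sw at h3
  rw [sub_T, hZ, sub_cast] at h3
  have e3 : sub (Fin.natAdd g 0) (FreeGroup.of (Fin.natAdd g 0) *
      FreeGroup.map (Fin.castAdd 2) W⁻¹) (b1 g * FreeGroup.map (Fin.castAdd 2) W) = b1 g := by
    rw [map_mul, sub_cast]
    simp
  rw [e3] at h3
  exact (h1.trans h2).trans h3

/-- `W b₂⁻¹` becomes `b₂` -/
lemma elim2 (W V : FreeGroup (Fin g)) :
    Reach (T R (b1 g) (FreeGroup.map (Fin.castAdd 2) V) (FreeGroup.map (Fin.castAdd 2) W * (b2 g)⁻¹))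
      (T R (b1 g) (FreeGroup.map (Fin.castAdd 2) V) (b2 g)) := by
  have hb : ∀ v, sub (Fin.natAdd g 1) v (b1 g) = b1 g := by
    intro v
    have hne : Fin.natAdd g 0 ≠ Fin.natAdd g (1 : Fin 2) := by
      intro hj
      have := congrArg Fin.val hj
      simp at this
    simp [b1]
  have h1 := reach_subInv (T R (b1 g) (FreeGroup.map (Fin.castAdd 2) V)
    (FreeGroup.map (Fin.castAdd 2) W * (b2 g)⁻¹)) (Fin.natAdd g 1)
  rw [sub_T, hb, sub_cast] at h1
  have e1 : sub (Fin.natAdd g 1) (FreeGroup.of (Fin.natAdd g 1))⁻¹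
      (FreeGroup.map (Fin.castAdd 2) W * (b2 g)⁻¹) = FreeGroup.map (Fin.castAdd 2) W * b2 g := by
    rw [map_mul, sub_cast]
    simp
  rw [e1] at h1
  have h2 := conj2 R (b1 g) (FreeGroup.map (Fin.castAdd 2) V)
    (FreeGroup.map (Fin.castAdd 2) W * b2 g) (b2 g)
  have e2 : b2 g * (FreeGroup.map (Fin.castAdd 2) W * b2 g) * (b2 g)⁻¹ =
      b2 g * FreeGroup.map (Fin.castAdd 2) W := by group
  rw [e2] at h2
  have h3 := reach_sw 1 W⁻¹ (T R (b1 g) (FreeGroup.map (Fin.castAdd 2) V)
    (b2 g * FreeGroup.map (Fin.castAdd 2) W))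
  unfold sw at h3
  rw [sub_T, hb, sub_cast] at h3
  have e3 : sub (Fin.natAdd g 1) (FreeGroup.of (Fin.natAdd g 1) *
      FreeGroup.map (Fin.castAdd 2) W⁻¹) (b2 g * FreeGroup.map (Fin.castAdd 2) W) = b2 g := by
    rw [map_mul, sub_cast]
    simp
  rw [e3] at h3
  exact (h1.trans h2).trans h3

end Elim

/-! ### The reduction -/

section Red

variable {g h : ℕ} (R : Fin h → FreeGroup (Fin g))

/-- the last relator becomes `b₁^(p - r) b₂^(-r)` -/
lemma step1 (p q r : ℤ) (S : FreeGroup (Fin g)) (m : ℕ)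
    (hS : S ^ m ∈ Subgroup.normalClosure (Set.range R))
    (hc : IsCoprime (m : ℤ) p ∨ |q| = 1 ∨ |r| = 1) :
    Reach (T R (FreeGroup.map (Fin.castAdd 2) S * (b1 g)⁻¹) (w g p q)
        (b1 g ^ p * (b1 g * b2 g) ^ (-r)))
      (T R (FreeGroup.map (Fin.castAdd 2) S * (b1 g)⁻¹) (w g p q) (w g (p - r) r)) := by
  have hcomm : ∀ (H : Type) [Group H] (f : FreeGroup (Fin (g + 2)) →* H),
      Commute (f (b1 g)) (f (b2 g)) → f (b1 g ^ p * (b1 g * b2 g) ^ (-r)) = f (w g (p - r) r) := by
    intro H _ f hf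
    unfold w
    rw [map_mul, map_mul, map_zpow, map_zpow, map_zpow, map_zpow, map_mul, hf.mul_zpow,
      ← mul_assoc, ← zpow_add, sub_eq_add_neg]
  rcases hc with hc | hc | hc
  · refine reach2 R (fun H _ f hR h0 h1 => hcomm H f ?_)
    have e0 : f (FreeGroup.map (Fin.castAdd 2) S) = f (b1 g) := by
      rw [map_mul, map_inv] at h0
      exact mul_inv_eq_one.1 h0
    have em : f (b1 g) ^ m = 1 := by
      have hle : Subgroup.normalClosure (Set.range R) ≤
          (f.comp (FreeGroup.map (Fin.castAdd 2))).ker := by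
        apply Subgroup.normalClosure_le_normal
        rintro _ ⟨j, rfl⟩
        exact hR j
      have h2 : f (FreeGroup.map (Fin.castAdd 2) (S ^ m)) = 1 := hle hS
      rw [map_pow, map_pow, e0] at h2
      exact h2
    have e1 : f (b1 g) ^ p = f (b2 g) ^ q := by
      unfold w at h1
      rw [map_mul, map_zpow, map_zpow, zpow_neg] at h1
      exact mul_inv_eq_one.1 h1
    obtain ⟨u, v, huv⟩ := hc
    have e2 : f (b1 g) = (f (b2 g) ^ q) ^ v := by
      rw [← e1, ← zpow_mul]
      calc f (b1 g) = f (b1 g) ^ (u * (m : ℤ) + v * p) := by rw [huv, zpow_one]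
        _ = (f (b1 g) ^ m) ^ u * f (b1 g) ^ (p * v) := by
            rw [zpow_add, mul_comm u, zpow_mul, zpow_natCast, mul_comm v]
        _ = f (b1 g) ^ (p * v) := by rw [em, one_zpow, one_mul]
    rw [e2]
    exact ((Commute.refl _).zpow_left q).zpow_left v
  · refine reach2 R (fun H _ f hR h0 h1 => hcomm H f ?_)
    have e1 : f (b1 g) ^ p = f (b2 g) ^ q := by
      unfold w at h1
      rw [map_mul, map_zpow, map_zpow, zpow_neg] at h1
      exact mul_inv_eq_one.1 h1
    have e2 : f (b2 g) = (f (b1 g) ^ p) ^ q := by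
      rw [e1, ← zpow_mul]
      have : q * q = 1 := by
        have h3 : |q| * |q| = 1 := by rw [hc]; norm_num
        rwa [← abs_mul, abs_of_nonneg (mul_self_nonneg q)] at h3
      rw [this, zpow_one]
    rw [e2]
    exact ((Commute.refl _).zpow_right p).zpow_right q
  · rcases (abs_eq (zero_le_one' ℤ)).1 hc with rfl | rfl
    · have h1 := conj2 R (FreeGroup.map (Fin.castAdd 2) S * (b1 g)⁻¹) (w g p q)
        (b1 g ^ p * (b1 g * b2 g) ^ (-1 : ℤ)) (b1 g)⁻¹
      have e : (b1 g)⁻¹ * (b1 g ^ p * (b1 g * b2 g) ^ (-1 : ℤ)) * ((b1 g)⁻¹)⁻¹ =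
          w g (p - 1) 1 := by
        unfold w
        rw [zpow_sub_one]
        group
      rwa [e] at h1
    · have e : b1 g ^ p * (b1 g * b2 g) ^ (-(-1) : ℤ) = w g (p - -1) (-1) := by
        unfold w
        rw [sub_neg_eq_add, zpow_add_one]
        group
      rw [e]
      exact Relation.ReflTransGen.refl

theorem reduce (p q r : ℤ) (hqr : IsCoprime q r) (S : FreeGroup (Fin g)) (m : ℕ)
    (hS : S ^ m ∈ Subgroup.normalClosure (Set.range R))
    (hc : IsCoprime (m : ℤ) p ∨ |q| = 1 ∨ |r| = 1) :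
    QEquiv (presP p q r R S) (presQ R (S ^ (p * q - p * r - q * r))) := by
  set S' : FreeGroup (Fin (g + 2)) := FreeGroup.map (Fin.castAdd 2) S with hS'
  set e : ℤ := p * q - p * r - q * r with he
  have h0 : presP p q r R S = ⟨g + 2, h + 3, T R (S' * (b1 g)⁻¹) (w g p q)
    (b1 g ^ p * (b1 g * b2 g) ^ (-r))⟩ := rfl
  rw [h0]
  have s1 := step1 R p q r S m hS hc
  obtain ⟨x, s2⟩ := euclid R (S' * (b1 g)⁻¹) r.natAbs p q (p - r) r le_rfl hqr
  have e1 : p * r - (p - r) * q = -e := by rw [he]; ring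
  rw [e1] at s2
  have s3 : Reach (T R (S' * (b1 g)⁻¹) (w g (-e) 0) (w g x 1))
      (T R (S' * (b1 g)⁻¹) (S' ^ (-e)) (w g x 1)) := by
    refine reach1 R (fun H _ f _ hx _ => ?_)
    rw [map_mul, map_inv] at hx
    have h3 := mul_inv_eq_one.1 hx
    unfold w
    rw [neg_zero, zpow_zero, mul_one, map_zpow, map_zpow, h3]
  have s4 := inv1 R (S' * (b1 g)⁻¹) (S' ^ (-e)) (w g x 1)
  rw [zpow_neg, inv_inv] at s4
  rw [zpow_neg] at s3
  have s5 : Reach (T R (S' * (b1 g)⁻¹) (S' ^ e) (w g x 1))
      (T R (S' * (b1 g)⁻¹) (S' ^ e) (S' ^ x * (b2 g)⁻¹)) := by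
    refine reach2 R (fun H _ f _ hx _ => ?_)
    rw [map_mul, map_inv] at hx
    have h3 := mul_inv_eq_one.1 hx
    unfold w
    rw [zpow_neg_one, map_mul, map_mul, map_zpow, map_zpow, h3]
  have eS : ∀ n : ℤ, S' ^ n = FreeGroup.map (Fin.castAdd 2) (S ^ n) := fun n => by
    rw [hS', map_zpow]
  rw [eS e, eS x] at s5
  have s6 := elim1 R S (S ^ e) (FreeGroup.map (Fin.castAdd 2) (S ^ x) * (b2 g)⁻¹) (by
    intro v
    have hne : Fin.natAdd g 1 ≠ Fin.natAdd g (0 : Fin 2) := by
      intro hj
      have := congrArg Fin.val hj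
      simp at this
    rw [map_mul, sub_cast]
    simp [b2])
  have s7 := elim2 R (S ^ x) (S ^ e)
  have s8 := swap01 R (b1 g) (FreeGroup.map (Fin.castAdd 2) (S ^ e)) (b2 g)
  have s9 : (⟨g + 2, h + 3, T R (FreeGroup.map (Fin.castAdd 2) (S ^ e)) (b1 g) (b2 g)⟩ : Pres) =
      (presQ R (S ^ e)).prolong.prolong := by
    have h9 : T R (FreeGroup.map (Fin.castAdd 2) (S ^ e)) (b1 g) (b2 g) =
        (presQ R (S ^ e)).prolong.prolong.rel := by
      funext k
      unfold Pres.prolong presQ
      simp only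
      induction k using Fin.lastCases with
      | last =>
        rw [Fin.snoc_last]
        exact T_2 ..
      | cast k =>
        rw [Fin.snoc_castSucc]
        induction k using Fin.lastCases with
        | last =>
          rw [Fin.snoc_last, FreeGroup.map.of]
          exact T_1 ..
        | cast k =>
          rw [Fin.snoc_castSucc]
          induction k using Fin.lastCases with
          | last =>
            rw [Fin.snoc_last, FreeGroup.map.comp]
            exact T_0 ..
          | cast k =>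
            rw [Fin.snoc_castSucc, FreeGroup.map.comp]
            exact T_R ..
    rw [h9]
    rfl
  have s10 : QEquiv (presQ R (S ^ e)).prolong.prolong (presQ R (S ^ e)) :=
    (Relation.ReflTransGen.single (Move.unprolong (presQ R (S ^ e)).prolong)).trans
      (Relation.ReflTransGen.single (Move.unprolong (presQ R (S ^ e))))
  rw [← s9] at s10
  have t1 := (s1.trans s2).trans s3
  have t2 := (t1.trans s4).trans (by rw [eS e]; exact s5)
  exact Relation.ReflTransGen.trans (((t2.trans s6).trans s7).trans s8) s10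

lemma normal_snoc (S : FreeGroup (Fin g)) : Subgroup.normalClosure (Set.range R) ≤
    Subgroup.normalClosure ((Fin.snoc (α := fun _ => FreeGroup (Fin g)) R S :
      Fin (h + 1) → FreeGroup (Fin g)) '' {k | k ≠ Fin.last h}) := by
  refine Subgroup.normalClosure_mono ?_
  rintro _ ⟨j, rfl⟩
  exact ⟨j.castSucc, (Fin.castSucc_lt_last j).ne, Fin.snoc_castSucc ..⟩

lemma presQ_congr {S S₂ : FreeGroup (Fin g)}
    (hS : S⁻¹ * S₂ ∈ Subgroup.normalClosure (Set.range R)) : QEquiv (presQ R S) (presQ R S₂) := by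
  have h1 : Reach (Fin.snoc (α := fun _ => FreeGroup (Fin g)) R S : Fin (h + 1) → FreeGroup (Fin g))
      (Fin.snoc (α := fun _ => FreeGroup (Fin g)) R S₂) := by
    refine reach_of_normal (Fin.last h) (fun k hk => ?_) ?_
    · induction k using Fin.lastCases with
      | last => exact absurd rfl hk
      | cast k => rw [Fin.snoc_castSucc, Fin.snoc_castSucc]
    · rw [Fin.snoc_last, Fin.snoc_last]
      exact normal_snoc R S hS
  exact h1

lemma presQ_inv (S : FreeGroup (Fin g)) : QEquiv (presQ R S) (presQ R S⁻¹) := by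
  have h1 := reach_inv (Fin.snoc (α := fun _ => FreeGroup (Fin g)) R S :
    Fin (h + 1) → FreeGroup (Fin g)) (Fin.last h)
  have e : Function.update (Fin.snoc (α := fun _ => FreeGroup (Fin g)) R S :
      Fin (h + 1) → FreeGroup (Fin g)) (Fin.last h)
      ((Fin.snoc (α := fun _ => FreeGroup (Fin g)) R S :
        Fin (h + 1) → FreeGroup (Fin g)) (Fin.last h))⁻¹ =
      Fin.snoc (α := fun _ => FreeGroup (Fin g)) R S⁻¹ := by
    rw [Fin.snoc_last, Fin.update_snoc_last]
  rw [e] at h1
  exact h1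

lemma presQ_pow (S : FreeGroup (Fin g)) (m : ℕ)
    (hS : S ^ m ∈ Subgroup.normalClosure (Set.range R)) (e : ℤ)
    (he : (m : ℤ) ∣ e - 1 ∨ (m : ℤ) ∣ e + 1) : QEquiv (presQ R (S ^ e)) (presQ R S) := by
  have hmem : ∀ n : ℤ, (m : ℤ) ∣ n → S ^ n ∈ Subgroup.normalClosure (Set.range R) := by
    rintro n ⟨k, rfl⟩
    rw [zpow_mul, zpow_natCast]
    exact Subgroup.zpow_mem _ hS k
  rcases he with he | he
  · refine presQ_congr R ?_
    have e1 : (S ^ e)⁻¹ * S = S ^ (-(e - 1)) := by
      rw [← zpow_neg, ← zpow_add_one]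
      congr 1
      ring
    rw [e1]
    exact hmem _ (dvd_neg.2 he)
  · refine Relation.ReflTransGen.trans (presQ_inv R (S ^ e)) (presQ_congr R ?_)
    have e1 : ((S ^ e)⁻¹)⁻¹ * S = S ^ (e + 1) := by
      rw [inv_inv, ← zpow_add_one]
    rw [e1]
    exact hmem _ he

end Red

/-! ### Homomorphisms to a fixed group -/

section Sharp

/-- there is a nontrivial homomorphism to `G` that kills the relators -/
def NT (G : Type) [Group G] (P : Pres) : Prop :=
  ∃ f : FreeGroup (Fin P.g) →* G, (∀ j, f (P.rel j) = 1) ∧ ∃ x, f x ≠ 1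

lemma NT.replace {G : Type} [Group G] {P : Pres} (hP : NT G P) (j : Fin P.h)
    (r : FreeGroup (Fin P.g))
    (hr : ∀ f : FreeGroup (Fin P.g) →* G, (∀ j, f (P.rel j) = 1) → f r = 1) :
    NT G (P.replace j r) := by
  obtain ⟨f, hf, x, hx⟩ := hP
  have h1 : ∀ i : Fin P.h, f (Function.update P.rel j r i) = 1 := by
    intro i
    by_cases hi : i = j
    · subst hi
      rw [Function.update_self]
      exact hr f hf
    · rw [Function.update_of_ne hi]
      exact hf i
  exact ⟨f, h1, x, hx⟩

lemma NT.subst {G : Type} [Group G] {P : Pres} (hP : NT G P) (i : Fin P.g)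
    (v v' : FreeGroup (Fin P.g)) (hv : (sub i v').comp (sub i v) = MonoidHom.id _) :
    NT G (P.subst i v) := by
  obtain ⟨f, hf, x, hx⟩ := hP
  have h1 : ∀ y, f (sub i v' (sub i v y)) = f y := fun y =>
    congrArg f (DFunLike.congr_fun hv y)
  refine ⟨f.comp (sub i v'), fun j => ?_, sub i v x, ?_⟩
  · change f (sub i v' (sub i v (P.rel j))) = 1
    rw [h1]
    exact hf j
  · change f (sub i v' (sub i v x)) ≠ 1
    rw [h1]
    exact hx

lemma NT.move {G : Type} [Group G] {P Q : Pres} (hPQ : Move P Q) (hP : NT G P) : NT G Q := by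
  cases hPQ with
  | conj _ j w =>
    exact hP.replace j _ fun f hf => by
      rw [map_mul, map_mul, hf, map_inv, mul_one, mul_inv_cancel]
  | inv _ j => exact hP.replace j _ fun f hf => by rw [map_inv, hf, inv_one]
  | mulRight _ j k hjk => exact hP.replace j _ fun f hf => by rw [map_mul, hf, hf, one_mul]
  | mulLeft _ j k hjk => exact hP.replace j _ fun f hf => by rw [map_mul, hf, hf, one_mul]
  | nielsenInv _ i => exact hP.subst i _ _ (sub_inv_inv i)
  | nielsenRight _ i k hik =>
    refine hP.subst i _ (FreeGroup.of i * (FreeGroup.of k)⁻¹) ?_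
    ext l
    by_cases hl : l = i
    · subst hl; simp [Function.update_of_ne hik]
    · simp [Function.update_of_ne hl]
  | nielsenLeft _ i k hik =>
    refine hP.subst i _ ((FreeGroup.of k)⁻¹ * FreeGroup.of i) ?_
    ext l
    by_cases hl : l = i
    · subst hl; simp [Function.update_of_ne hik]
    · simp [Function.update_of_ne hl]
  | prolong =>
    obtain ⟨f, hf, x, hx⟩ := hP
    set f' : FreeGroup (Fin (P.g + 1)) →* G :=
      FreeGroup.lift (Fin.snoc (α := fun _ => G) (fun i => f (FreeGroup.of i)) 1) with hf'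
    have h1 : f'.comp (FreeGroup.map Fin.castSucc) = f := by
      ext l
      simp [hf']
    have h3 : f' (FreeGroup.map Fin.castSucc x) ≠ 1 := by
      have h2 : f' (FreeGroup.map Fin.castSucc x) = f x := DFunLike.congr_fun h1 x
      rw [h2]
      exact hx
    have h4 : ∀ j : Fin (P.h + 1), f' ((Fin.snoc (α := fun _ => FreeGroup (Fin (P.g + 1)))
        (fun j => FreeGroup.map Fin.castSucc (P.rel j)) (FreeGroup.of (Fin.last P.g)) :
          Fin (P.h + 1) → FreeGroup (Fin (P.g + 1))) j) = 1 := by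
      intro j
      induction j using Fin.lastCases with
      | last =>
        rw [Fin.snoc_last, hf']
        simp
      | cast j =>
        rw [Fin.snoc_castSucc]
        exact (DFunLike.congr_fun h1 (P.rel j)).trans (hf j)
    exact ⟨f', h4, _, h3⟩
  | unprolong =>
    obtain ⟨f, hf, x, hx⟩ := hP
    have key : ∀ (f : FreeGroup (Fin (Q.g + 1)) →* G) (x : FreeGroup (Fin (Q.g + 1))),
        (∀ j : Fin (Q.h + 1), f ((Fin.snoc (α := fun _ => FreeGroup (Fin (Q.g + 1)))
          (fun j => FreeGroup.map Fin.castSucc (Q.rel j)) (FreeGroup.of (Fin.last Q.g)) :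
            Fin (Q.h + 1) → FreeGroup (Fin (Q.g + 1))) j) = 1) → f x ≠ 1 → NT G Q := by
      intro f x hf hx
      refine ⟨f.comp (FreeGroup.map Fin.castSucc), fun j => ?_, ?_⟩
      · have h1 := hf (Fin.castSucc j)
        rw [Fin.snoc_castSucc] at h1
        exact h1
      · by_contra hcon
        push Not at hcon
        apply hx
        have h1 : f = 1 := by
          refine FreeGroup.ext_hom _ _ fun l => ?_
          induction l using Fin.lastCases with
          | last =>
            have h2 := hf (Fin.last Q.h)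
            rw [Fin.snoc_last] at h2
            exact h2
          | cast l =>
            have h2 : f (FreeGroup.map Fin.castSucc (FreeGroup.of l)) = 1 := hcon (FreeGroup.of l)
            rw [FreeGroup.map.of] at h2
            exact h2
        rw [h1]
        rfl
    exact key f x hf hx

lemma NT.equiv {G : Type} [Group G] {P Q : Pres} (hPQ : QEquiv P Q) (hP : NT G P) : NT G Q := by
  induction hPQ with
  | refl => exact hP
  | tail _ hm ih => exact NT.move hm ih

/-! ### Triangle groups -/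

lemma root (n : ℕ) (hn : 2 ≤ n) : ∃ l μ : ℂ, l * μ = 1 ∧ l ≠ μ ∧ l ^ n = -1 := by
  have h := Complex.isPrimitiveRoot_exp (2 * n) (by omega)
  set l := Complex.exp (2 * Real.pi * Complex.I / ((2 * n : ℕ) : ℂ)) with hl
  have hl0 : l ≠ 0 := Complex.exp_ne_zero _
  refine ⟨l, l⁻¹, mul_inv_cancel₀ hl0, fun hh => ?_, ?_⟩
  · have h2 : l ^ 2 = 1 := by
      rw [sq]
      nth_rewrite 2 [hh]
      exact mul_inv_cancel₀ hl0
    have h3 := h.dvd_of_pow_eq_one 2 h2
    have h4 := Nat.le_of_dvd (by norm_num) h3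
    omega
  · have h2 : (l ^ n) ^ 2 = 1 := by
      rw [← pow_mul, mul_comm n 2]
      exact h.pow_eq_one
    rw [sq] at h2
    rcases mul_self_eq_one_iff.1 h2 with h3 | h3
    · have h4 := Nat.le_of_dvd (by omega) (h.dvd_of_pow_eq_one n h3)
      omega
    · exact h3

lemma pow_neg_one (n : ℕ) (M : Matrix (Fin 2) (Fin 2) ℂ) (l μ : ℂ) (hl : l * μ = 1)
    (hne : l ≠ μ) (hM : M * M = (l + μ) • M - 1) (hn : l ^ n = -1) : M ^ n = -1 := by
  have key : ∀ k : ℕ, (l - μ) • M ^ (k + 1) =
      (l ^ (k + 1) - μ ^ (k + 1)) • M - (l ^ k - μ ^ k) • (1 : Matrix (Fin 2) (Fin 2) ℂ) := by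
    intro k
    induction k with
    | zero => simp
    | succ k ih =>
      rw [pow_succ, ← smul_mul_assoc, ih, sub_mul, smul_mul_assoc, smul_mul_assoc, one_mul, hM]
      have e : l ^ (k + 1 + 1) - μ ^ (k + 1 + 1) =
          (l ^ (k + 1) - μ ^ (k + 1)) * (l + μ) - (l ^ k - μ ^ k) := by
        linear_combination (-(l ^ k - μ ^ k)) * hl
      rw [e]
      module
  rcases n with _ | k
  · rw [pow_zero] at hn
    norm_num at hn
  · have h1 := key k
    have hμ : μ ^ (k + 1) = -1 := by
      have : l ^ (k + 1) * μ ^ (k + 1) = 1 := by rw [← mul_pow, hl, one_pow]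
      rw [hn] at this
      linear_combination -this
    have e1 : l ^ k = -μ := by
      have : l ^ (k + 1) * μ = l ^ k := by rw [pow_succ, mul_assoc, hl, mul_one]
      rw [← this, hn]
      ring
    have e2 : μ ^ k = -l := by
      have : μ ^ (k + 1) * l = μ ^ k := by rw [pow_succ, mul_assoc, mul_comm μ l, hl, mul_one]
      rw [← this, hμ]
      ring
    rw [hn, hμ, e1, e2, sub_self, zero_smul, zero_sub] at h1
    have h2 : (l - μ) • M ^ (k + 1) = (l - μ) • (-1 : Matrix (Fin 2) (Fin 2) ℂ) := by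
      rw [h1]
      module
    exact smul_right_injective _ (sub_ne_zero.2 hne) h2

/-- `SL(2, ℂ)` -/
abbrev SL := Matrix.SpecialLinearGroup (Fin 2) ℂ

/-- `PSL(2, ℂ)` -/
abbrev PSL := SL ⧸ Subgroup.center SL

lemma sl_pow (n : ℕ) (M : SL) (l μ : ℂ) (hl : l * μ = 1) (hne : l ≠ μ)
    (htr : M.1 0 0 + M.1 1 1 = l + μ) (hn : l ^ n = -1) :
    ((QuotientGroup.mk' (Subgroup.center SL)) M) ^ n = 1 := by
  have hdet := M.2
  rw [Matrix.det_fin_two] at hdet
  have hM : M.1 * M.1 = (l + μ) • M.1 - 1 := by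
    rw [← htr]
    ext i j
    fin_cases i <;> fin_cases j
    · simp [Matrix.mul_apply, Fin.sum_univ_two]
      linear_combination -hdet
    · simp [Matrix.mul_apply, Fin.sum_univ_two]
      ring
    · simp [Matrix.mul_apply, Fin.sum_univ_two]
      ring
    · simp [Matrix.mul_apply, Fin.sum_univ_two]
      linear_combination -hdet
  have h1 := pow_neg_one n M.1 l μ hl hne hM hn
  rw [← map_pow, QuotientGroup.mk'_apply, QuotientGroup.eq_one_iff, Subgroup.mem_center_iff]
  intro g
  apply Subtype.ext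
  rw [Matrix.SpecialLinearGroup.coe_mul, Matrix.SpecialLinearGroup.coe_mul,
    Matrix.SpecialLinearGroup.coe_pow, h1]
  simp

theorem triangle (d q r : ℕ) (hd : 2 ≤ d) (hq : 2 ≤ q) (hr : 2 ≤ r) :
    ∃ s b : PSL, s ≠ 1 ∧ s ^ d = 1 ∧ b ^ q = 1 ∧ (s * b) ^ r = 1 := by
  obtain ⟨l, μ, h1, h2, h3⟩ := root d hd
  obtain ⟨l', μ', h1', h2', h3'⟩ := root q hq
  obtain ⟨β, γ, k1, k2, k3⟩ := root r hr
  set A : SL := ⟨!![l + μ, -1; 1, 0], by simp [Matrix.det_fin_two]⟩ with hA
  set B : SL := ⟨!![0, β; -γ, l' + μ'], by simp [Matrix.det_fin_two, k1]⟩ with hB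
  have hA1 : (A : Matrix (Fin 2) (Fin 2) ℂ) = !![l + μ, -1; 1, 0] := rfl
  have hB1 : (B : Matrix (Fin 2) (Fin 2) ℂ) = !![0, β; -γ, l' + μ'] := rfl
  refine ⟨QuotientGroup.mk' (Subgroup.center SL) A, QuotientGroup.mk' (Subgroup.center SL) B,
    ?_, ?_, ?_, ?_⟩
  · rw [QuotientGroup.mk'_apply, Ne, QuotientGroup.eq_one_iff, Subgroup.mem_center_iff]
    intro h
    set C : SL := ⟨!![1, 1; 0, 1], by simp [Matrix.det_fin_two]⟩ with hC
    have hC1 : (C : Matrix (Fin 2) (Fin 2) ℂ) = !![1, 1; 0, 1] := rfl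
    have h4 : ((C * A : SL) : Matrix (Fin 2) (Fin 2) ℂ) 1 1 =
        ((A * C : SL) : Matrix (Fin 2) (Fin 2) ℂ) 1 1 := by rw [h C]
    rw [Matrix.SpecialLinearGroup.coe_mul, Matrix.SpecialLinearGroup.coe_mul, Matrix.mul_apply,
      Matrix.mul_apply, Fin.sum_univ_two, Fin.sum_univ_two, hA1, hC1] at h4
    simp at h4
  · exact sl_pow d A l μ h1 h2 (by simp [hA]) h3
  · exact sl_pow q B l' μ' h1' h2' (by simp [hB]) h3'
  · rw [← map_mul]
    refine sl_pow r (A * B) β γ k1 k2 ?_ k3
    rw [Matrix.SpecialLinearGroup.coe_mul, Matrix.mul_apply, Matrix.mul_apply, Fin.sum_univ_two,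
      Fin.sum_univ_two, hA1, hB1]
    simp
    ring

/-- the tail over a cyclic group -/
theorem nt_pres (p q r : ℤ) (m : ℕ) (hm : ¬ IsCoprime (m : ℤ) p) (hmp : ¬ (m = 0 ∧ p = 0))
    (hq : 2 ≤ q.natAbs) (hr : 2 ≤ r.natAbs) :
    NT PSL (presP p q r (fun _ : Fin 1 => (FreeGroup.of 0 : FreeGroup (Fin 1)) ^ m)
      (FreeGroup.of 0)) := by
  set d : ℕ := Int.gcd m p with hd
  have hd2 : 2 ≤ d := by
    have h1 : d ≠ 1 := fun h => hm (Int.isCoprime_iff_gcd_eq_one.2 h)
    have h0 : d ≠ 0 := by
      intro h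
      rw [hd, Int.gcd_eq_zero_iff] at h
      exact hmp ⟨by exact_mod_cast h.1, h.2⟩
    omega
  obtain ⟨s, b, hs, h1, h2, h3⟩ := triangle d q.natAbs r.natAbs hd2 hq hr
  have hz : ∀ (x : PSL) (n : ℕ) (k : ℤ), x ^ n = 1 → (n : ℤ) ∣ k → x ^ k = 1 := by
    rintro x n k hx ⟨c, rfl⟩
    rw [zpow_mul, zpow_natCast, hx, one_zpow]
  have hsm : s ^ m = 1 := by
    have := hz s d m h1 (Int.gcd_dvd_left ..)
    rwa [zpow_natCast] at this
  have hsp : s ^ p = 1 := hz s d p h1 (Int.gcd_dvd_right ..)
  have hbq : b ^ (-q) = 1 := hz b _ _ h2 (by rw [dvd_neg]; exact Int.natAbs_dvd.2 (dvd_refl _))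
  have hsr : (s * b) ^ (-r) = 1 :=
    hz _ _ _ h3 (by rw [dvd_neg]; exact Int.natAbs_dvd.2 (dvd_refl _))
  set f : FreeGroup (Fin (1 + 2)) →* PSL := FreeGroup.lift ![s, s, b] with hf
  have f0 : f (FreeGroup.of (Fin.castAdd 2 0)) = s := by
    rw [hf, FreeGroup.lift_apply_of]
    rfl
  have f1 : f (FreeGroup.of (Fin.natAdd 1 0)) = s := by
    rw [hf, FreeGroup.lift_apply_of]
    rfl
  have f2 : f (FreeGroup.of (Fin.natAdd 1 1)) = b := by
    rw [hf, FreeGroup.lift_apply_of]
    rfl
  have h5 : f (FreeGroup.of (Fin.castAdd 2 0)) ≠ 1 := by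
    rw [f0]
    exact hs
  have h4 : ∀ j : Fin (1 + 3), f (Fin.append (fun _ : Fin 1 => FreeGroup.map (Fin.castAdd 2)
      ((FreeGroup.of 0 : FreeGroup (Fin 1)) ^ m))
    ![FreeGroup.map (Fin.castAdd 2) (FreeGroup.of 0) * (FreeGroup.of (Fin.natAdd 1 0))⁻¹,
      FreeGroup.of (Fin.natAdd 1 0) ^ p * FreeGroup.of (Fin.natAdd 1 1) ^ (-q),
      FreeGroup.of (Fin.natAdd 1 0) ^ p *
        (FreeGroup.of (Fin.natAdd 1 0) * FreeGroup.of (Fin.natAdd 1 1)) ^ (-r)] j) = 1 := by
    intro j
    induction j using Fin.addCases with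
    | left j =>
      rw [Fin.append_left, map_pow, FreeGroup.map.of, map_pow, f0]
      exact hsm
    | right j =>
      rw [Fin.append_right]
      fin_cases j
      · change f (FreeGroup.map (Fin.castAdd 2) (FreeGroup.of 0) *
          (FreeGroup.of (Fin.natAdd 1 0))⁻¹) = 1
        rw [map_mul, FreeGroup.map.of, f0, map_inv, f1, mul_inv_cancel]
      · change f (FreeGroup.of (Fin.natAdd 1 0) ^ p * FreeGroup.of (Fin.natAdd 1 1) ^ (-q)) = 1
        rw [map_mul, map_zpow, map_zpow, f1, f2, hsp, hbq, one_mul]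
      · change f (FreeGroup.of (Fin.natAdd 1 0) ^ p *
          (FreeGroup.of (Fin.natAdd 1 0) * FreeGroup.of (Fin.natAdd 1 1)) ^ (-r)) = 1
        rw [map_mul, map_zpow, map_zpow, map_mul, f1, f2, hsp, hsr, one_mul]
  exact ⟨f, h4, _, h5⟩

lemma not_nt {G : Type} [Group G] (m : ℕ) :
    ¬ NT G (presQ (fun _ : Fin 1 => (FreeGroup.of 0 : FreeGroup (Fin 1)) ^ m)
      (FreeGroup.of 0)) := by
  rintro ⟨f, hf, x, hx⟩
  have key : ∀ (f : FreeGroup (Fin 1) →* G) (x : FreeGroup (Fin 1)),
      (∀ j : Fin (1 + 1), f ((Fin.snoc (α := fun _ => FreeGroup (Fin 1))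
        (fun _ : Fin 1 => (FreeGroup.of 0 : FreeGroup (Fin 1)) ^ m) (FreeGroup.of 0) :
          Fin (1 + 1) → FreeGroup (Fin 1)) j) = 1) → f x = 1 := by
    intro f x hf
    have h1 := hf (Fin.last 1)
    rw [Fin.snoc_last] at h1
    have h2 : f = 1 := by
      refine FreeGroup.ext_hom _ _ fun l => ?_
      rw [Subsingleton.elim l 0, h1]
      rfl
    rw [h2]
    rfl
  exact hx (key f x hf)

lemma order_cyclic (m : ℕ) : orderOf (PresentedGroup.mk (Set.range
    (fun _ : Fin 1 => (FreeGroup.of 0 : FreeGroup (Fin 1)) ^ m)) (FreeGroup.of 0)) = m := by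
  set rels := Set.range (fun _ : Fin 1 => (FreeGroup.of 0 : FreeGroup (Fin 1)) ^ m) with hrels
  refine Nat.dvd_antisymm ?_ ?_
  · refine orderOf_dvd_of_pow_eq_one ?_
    rw [← map_pow]
    exact (QuotientGroup.eq_one_iff _).2 (Subgroup.subset_normalClosure ⟨0, rfl⟩)
  · set t : Multiplicative (ZMod m) := Multiplicative.ofAdd 1 with ht
    have htm : orderOf t = m := by
      rw [ht, orderOf_ofAdd_eq_addOrderOf, ZMod.addOrderOf_one]
    have hrel : ∀ x ∈ rels, FreeGroup.lift (fun _ : Fin 1 => t) x = 1 := by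
      rintro _ ⟨j, rfl⟩
      simp only
      rw [map_pow, FreeGroup.lift_apply_of]
      have h0 := pow_orderOf_eq_one t
      rw [htm] at h0
      exact h0
    set F : PresentedGroup rels →* Multiplicative (ZMod m) := PresentedGroup.toGroup hrel with hF
    have h1 : F (PresentedGroup.mk rels (FreeGroup.of 0)) = t := PresentedGroup.toGroup.of hrel
    have h2 := orderOf_map_dvd F (PresentedGroup.mk rels (FreeGroup.of 0))
    rw [h1, htm] at h2
    exact h2

end Sharp

lemma pow_mem {g h : ℕ} (R : Fin h → FreeGroup (Fin g)) (S : FreeGroup (Fin g)) :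
    S ^ orderOf (PresentedGroup.mk (Set.range R) S) ∈ Subgroup.normalClosure (Set.range R) := by
  rw [← QuotientGroup.eq_one_iff]
  exact pow_orderOf_eq_one (PresentedGroup.mk (Set.range R) S)

/-- **Main theorem.**
(A) Let `p`, `q`, `r` be integers, `q` and `r` coprime, `R_1, ..., R_h` and `S` elements of the free group
on `a_1, ..., a_g` and `m` the order of the image of `S` in `G = ⟨a_1, ..., a_g | R_1, ..., R_h⟩`, with
`m = 0` if it is infinite.  If `m` is coprime to `p`, or `|q| = 1`, or `|r| = 1`, then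
`⟨a_1, ..., a_g, b_1, b_2 | R_1, ..., R_h, S b_1⁻¹, b_1^p b_2^(-q), b_1^p (b_1 b_2)^(-r)⟩` is Q**-equivalent
to `⟨a_1, ..., a_g | R_1, ..., R_h, S^e⟩` with `e = p q - p r - q r`, and if `e ≡ ±1 mod m`, it is
Q**-equivalent to `⟨a_1, ..., a_g | R_1, ..., R_h, S⟩`.

(B) Let `p q - p r - q r = ±1` and `m` a natural number.  The two presentations
`⟨a_1, ..., a_g, b_1, b_2 | R_1, ..., R_h, S b_1⁻¹, b_1^p b_2^(-q), b_1^p (b_1 b_2)^(-r)⟩` and
`⟨a_1, ..., a_g | R_1, ..., R_h, S⟩` are Q**-equivalent for all `g`, `h`, `R_1, ..., R_h` and all `S` whose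
image in `G` has order `m` (infinite order, if `m = 0`) if and only if `m` is coprime to `p`, or
`|q| = 1`, or `|r| = 1`.  For the binary icosahedral tail, `(p, q, r) = (3, 5, 2)`, this holds if and
only if `3` does not divide `m`. -/
theorem mainThm :
    (∀ p q r : ℤ, IsCoprime q r → ∀ (g h : ℕ) (R : Fin h → FreeGroup (Fin g))
      (S : FreeGroup (Fin g)),
      (IsCoprime (orderOf (PresentedGroup.mk (Set.range R) S) : ℤ) p ∨ |q| = 1 ∨ |r| = 1) →
        QEquiv (presP p q r R S) (presQ R (S ^ (p * q - p * r - q * r))) ∧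
        QEquiv (presQ R (S ^ (p * q - p * r - q * r))) (presP p q r R S) ∧
        ((orderOf (PresentedGroup.mk (Set.range R) S) : ℤ) ∣ (p * q - p * r - q * r) - 1 ∨
          (orderOf (PresentedGroup.mk (Set.range R) S) : ℤ) ∣ (p * q - p * r - q * r) + 1 →
            QEquiv (presP p q r R S) (presQ R S) ∧ QEquiv (presQ R S) (presP p q r R S))) ∧
    ∀ p q r : ℤ, |p * q - p * r - q * r| = 1 → ∀ m : ℕ,
      (∀ (g h : ℕ) (R : Fin h → FreeGroup (Fin g)) (S : FreeGroup (Fin g)),
        orderOf (PresentedGroup.mk (Set.range R) S) = m → QEquiv (presP p q r R S) (presQ R S)) ↔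
      (IsCoprime (m : ℤ) p ∨ |q| = 1 ∨ |r| = 1) := by
  have hA : ∀ p q r : ℤ, IsCoprime q r → ∀ (g h : ℕ) (R : Fin h → FreeGroup (Fin g))
      (S : FreeGroup (Fin g)),
      (IsCoprime (orderOf (PresentedGroup.mk (Set.range R) S) : ℤ) p ∨ |q| = 1 ∨ |r| = 1) →
        QEquiv (presP p q r R S) (presQ R (S ^ (p * q - p * r - q * r))) :=
    fun p q r hqr g h R S hc => reduce R p q r hqr S _ (pow_mem R S) hc
  refine ⟨fun p q r hqr g h R S hc => ⟨hA p q r hqr g h R S hc, (hA p q r hqr g h R S hc).symm,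
    fun he => ?_⟩, fun p q r he m => ⟨fun H => ?_, fun hc g h R S hS => ?_⟩⟩
  · have h1 := Relation.ReflTransGen.trans (hA p q r hqr g h R S hc)
      (presQ_pow R S _ (pow_mem R S) _ he)
    exact ⟨h1, QEquiv.symm h1⟩
  · by_contra hcon
    push Not at hcon
    obtain ⟨h1, h2, h3⟩ := hcon
    have hp1 : ¬ |p| = 1 := by
      intro h
      apply h1
      rw [Int.isCoprime_iff_gcd_eq_one]
      have h4 : p.natAbs = 1 := by
        rw [Int.abs_eq_natAbs] at h
        exact_mod_cast h
      rw [Int.gcd, h4]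
      simp
    have hq0 : q ≠ 0 := by
      rintro rfl
      have h4 : |p| * |r| = 1 := by
        rw [← abs_mul]
        simpa using he
      exact hp1 (Int.eq_one_or_neg_one_of_mul_eq_one h4 |>.resolve_right (by
        have := abs_nonneg p
        omega))
    have hr0 : r ≠ 0 := by
      rintro rfl
      have h4 : |p| * |q| = 1 := by
        rw [← abs_mul]
        simpa using he
      exact hp1 (Int.eq_one_or_neg_one_of_mul_eq_one h4 |>.resolve_right (by
        have := abs_nonneg p
        omega))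
    have hmp : ¬ (m = 0 ∧ p = 0) := by
      rintro ⟨-, rfl⟩
      have h4 : |q| * |r| = 1 := by
        rw [← abs_mul]
        simpa using he
      exact h2 (Int.eq_one_or_neg_one_of_mul_eq_one h4 |>.resolve_right (by
        have := abs_nonneg q
        omega))
    have hq2 : 2 ≤ q.natAbs := by
      rw [Int.abs_eq_natAbs] at h2
      omega
    have hr2 : 2 ≤ r.natAbs := by
      rw [Int.abs_eq_natAbs] at h3
      omega
    have h5 := H 1 1 (fun _ : Fin 1 => (FreeGroup.of 0 : FreeGroup (Fin 1)) ^ m) (FreeGroup.of 0)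
      (order_cyclic m)
    exact not_nt m ((nt_pres p q r m h1 hmp hq2 hr2).equiv h5)
  · have hqr : IsCoprime q r := by
      rcases (abs_eq (zero_le_one' ℤ)).1 he with h | h
      · exact ⟨p - r, -p, by linear_combination h⟩
      · exact ⟨-(p - r), p, by linear_combination -h⟩
    have h1 := hA p q r hqr g h R S (by rw [hS]; exact hc)
    refine Relation.ReflTransGen.trans h1 (presQ_pow R S _ (pow_mem R S) _ ?_)
    rcases (abs_eq (zero_le_one' ℤ)).1 he with h4 | h4
    · left
      rw [h4, sub_self]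
      exact dvd_zero _
    · right
      rw [h4]
      norm_num

end Pool.Agent.H380BT
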