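import Mathlib
import Pool.Agent.H380BT.Base

/-!
# Tails attached at the other two vertices

The relator `S b₁⁻¹` is replaced by `S b₂⁻¹` or `S (b₁ b₂)⁻¹`.
-/

set_option autoImplicit false

namespace Pool.Agent.H380BT

section Vertex

variable {g h : ℕ} (R : Fin h → FreeGroup (Fin g)) (x y z : FreeGroup (Fin (g + 2)))

lemma natAdd_01 : (Fin.natAdd g (0 : Fin 2)) ≠ Fin.natAdd g 1 := by
  intro hj
  have := congrArg Fin.val hj
  simp at this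

lemma natAdd_10 : (Fin.natAdd g (1 : Fin 2)) ≠ Fin.natAdd g 0 := natAdd_01.symm

/-- the substitution `b₁ ↦ v` -/
abbrev s0 (v : FreeGroup (Fin (g + 2))) : FreeGroup (Fin (g + 2)) →* FreeGroup (Fin (g + 2)) :=
  sub (Fin.natAdd g 0) v

/-- the substitution `b₂ ↦ v` -/
abbrev s1 (v : FreeGroup (Fin (g + 2))) : FreeGroup (Fin (g + 2)) →* FreeGroup (Fin (g + 2)) :=
  sub (Fin.natAdd g 1) v

lemma s0_b1 (v : FreeGroup (Fin (g + 2))) : s0 v (b1 g) = v := by simp [b1]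
lemma s0_b2 (v : FreeGroup (Fin (g + 2))) : s0 v (b2 g) = b2 g := by
  simp [b2]
lemma s1_b1 (v : FreeGroup (Fin (g + 2))) : s1 v (b1 g) = b1 g := by
  simp [b1]
lemma s1_b2 (v : FreeGroup (Fin (g + 2))) : s1 v (b2 g) = v := by simp [b2]

lemma inv0_T : Reach (T R x y z) (T R (s0 (b1 g)⁻¹ x) (s0 (b1 g)⁻¹ y) (s0 (b1 g)⁻¹ z)) := by
  have h1 := reach_subInv (T R x y z) (Fin.natAdd g 0)
  rwa [sub_T] at h1

lemma inv1_T : Reach (T R x y z) (T R (s1 (b2 g)⁻¹ x) (s1 (b2 g)⁻¹ y) (s1 (b2 g)⁻¹ z)) := by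
  have h1 := reach_subInv (T R x y z) (Fin.natAdd g 1)
  rwa [sub_T] at h1

lemma right0_T : Reach (T R x y z)
    (T R (s0 (b1 g * b2 g) x) (s0 (b1 g * b2 g) y) (s0 (b1 g * b2 g) z)) := by
  have h1 := reach_subRight (T R x y z) (Fin.natAdd g 0) (Fin.natAdd g 1) natAdd_10
  rwa [sub_T] at h1

lemma right1_T : Reach (T R x y z)
    (T R (s1 (b2 g * b1 g) x) (s1 (b2 g * b1 g) y) (s1 (b2 g * b1 g) z)) := by
  have h1 := reach_subRight (T R x y z) (Fin.natAdd g 1) (Fin.natAdd g 0) natAdd_01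
  rwa [sub_T] at h1

lemma left0_T : Reach (T R x y z)
    (T R (s0 (b2 g * b1 g) x) (s0 (b2 g * b1 g) y) (s0 (b2 g * b1 g) z)) := by
  have h1 := reach_subLeft (T R x y z) (Fin.natAdd g 0) (Fin.natAdd g 1) natAdd_10
  rwa [sub_T] at h1

lemma left1_T : Reach (T R x y z)
    (T R (s1 (b1 g * b2 g) x) (s1 (b1 g * b2 g) y) (s1 (b1 g * b2 g) z)) := by
  have h1 := reach_subLeft (T R x y z) (Fin.natAdd g 1) (Fin.natAdd g 0) natAdd_01
  rwa [sub_T] at h1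

/-- the automorphism which exchanges `b₁` and `b₂` -/
def swp (g : ℕ) : FreeGroup (Fin (g + 2)) →* FreeGroup (Fin (g + 2)) :=
  (s0 (b1 g)⁻¹).comp ((s0 (b2 g * b1 g)).comp ((s1 (b2 g)⁻¹).comp
    ((s1 (b2 g * b1 g)).comp ((s1 (b2 g)⁻¹).comp (s0 (b1 g * b2 g))))))

lemma swp_b1 : swp g (b1 g) = b2 g := by
  unfold swp
  simp only [MonoidHom.comp_apply, s0_b1, s0_b2, s1_b1, s1_b2, map_mul, map_inv]
  group

lemma swp_b2 : swp g (b2 g) = b1 g := by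
  unfold swp
  simp only [MonoidHom.comp_apply, s0_b1, s0_b2, s1_b1, s1_b2, map_mul, map_inv]
  group

lemma swp_cast (W : FreeGroup (Fin g)) :
    swp g (FreeGroup.map (Fin.castAdd 2) W) = FreeGroup.map (Fin.castAdd 2) W := by
  unfold swp
  simp only [MonoidHom.comp_apply, sub_cast]

lemma swp_T : Reach (T R x y z) (T R (swp g x) (swp g y) (swp g z)) := by
  have h1 := right0_T R x y z
  have h2 := h1.trans (inv1_T R _ _ _)
  have h3 := h2.trans (right1_T R _ _ _)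
  have h4 := h3.trans (inv1_T R _ _ _)
  have h5 := h4.trans (left0_T R _ _ _)
  exact h5.trans (inv0_T R _ _ _)

/-- the automorphism `b₁ ↦ b₁⁻¹`, `b₂ ↦ b₁ b₂` -/
def tw (g : ℕ) : FreeGroup (Fin (g + 2)) →* FreeGroup (Fin (g + 2)) :=
  (s1 (b1 g * b2 g)).comp (s0 (b1 g)⁻¹)

lemma tw_b1 : tw g (b1 g) = (b1 g)⁻¹ := by
  unfold tw
  simp only [MonoidHom.comp_apply, s0_b1, s1_b1, map_inv]

lemma tw_b2 : tw g (b2 g) = b1 g * b2 g := by
  unfold tw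
  simp only [MonoidHom.comp_apply, s0_b2, s1_b2]

lemma tw_cast (W : FreeGroup (Fin g)) :
    tw g (FreeGroup.map (Fin.castAdd 2) W) = FreeGroup.map (Fin.castAdd 2) W := by
  unfold tw
  simp only [MonoidHom.comp_apply, sub_cast]

lemma tw_T : Reach (T R x y z) (T R (tw g x) (tw g y) (tw g z)) :=
  (inv0_T R x y z).trans (left1_T R _ _ _)

lemma swap12 : Reach (T R x y z) (T R x z y) := by
  have h1 : Reach (T R x y z) (T R x (y * z) z) :=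
    reach1 R (fun H _ q _ _ hz => by rw [map_mul, hz, mul_one])
  have h2 : Reach (T R x (y * z) z) (T R x (y * z) y⁻¹) :=
    reach2 R (fun H _ q _ _ hy => by
      rw [map_mul] at hy
      rw [map_inv]
      exact eq_inv_of_mul_eq_one_right hy)
  have h3 : Reach (T R x (y * z) y⁻¹) (T R x z y⁻¹) :=
    reach1 R (fun H _ q _ _ hz => by
      rw [map_inv, inv_eq_one] at hz
      rw [map_mul, hz, one_mul])
  have h4 : Reach (T R x z y⁻¹) (T R x z y) := by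
    have h5 := reach_inv (T R x z y⁻¹) (Fin.natAdd h 2)
    rwa [T_2, T_up2, inv_inv] at h5
  exact ((h1.trans h2).trans h3).trans h4

/-- `⟨a_1, ..., a_g, b_1, b_2 | R_1, ..., R_h, S b_2⁻¹, b_1^p b_2^(-q), b_1^p (b_1 b_2)^(-r)⟩` -/
lemma second (p q r : ℤ) (S' : FreeGroup (Fin g)) :
    Reach (T R (FreeGroup.map (Fin.castAdd 2) S' * (b2 g)⁻¹) (b1 g ^ p * b2 g ^ (-q))
        (b1 g ^ p * (b1 g * b2 g) ^ (-r)))
      (T R (FreeGroup.map (Fin.castAdd 2) S' * (b1 g)⁻¹) (b1 g ^ q * b2 g ^ (-p))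
        (b1 g ^ q * (b1 g * b2 g) ^ (-r))) := by
  have h1 := swp_T R (FreeGroup.map (Fin.castAdd 2) S' * (b2 g)⁻¹) (b1 g ^ p * b2 g ^ (-q))
    (b1 g ^ p * (b1 g * b2 g) ^ (-r))
  simp only [map_mul, map_inv, map_zpow, swp_b1, swp_b2, swp_cast] at h1
  have h2 := inv1 R (FreeGroup.map (Fin.castAdd 2) S' * (b1 g)⁻¹) (b2 g ^ p * b1 g ^ (-q))
    (b2 g ^ p * (b2 g * b1 g) ^ (-r))
  have e2 : (b2 g ^ p * b1 g ^ (-q))⁻¹ = b1 g ^ q * b2 g ^ (-p) := by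
    rw [mul_inv_rev, ← zpow_neg, ← zpow_neg, neg_neg]
  rw [e2] at h2
  have h3 : Reach (T R (FreeGroup.map (Fin.castAdd 2) S' * (b1 g)⁻¹) (b1 g ^ q * b2 g ^ (-p))
      (b2 g ^ p * (b2 g * b1 g) ^ (-r)))
      (T R (FreeGroup.map (Fin.castAdd 2) S' * (b1 g)⁻¹) (b1 g ^ q * b2 g ^ (-p))
      (b1 g ^ q * (b2 g * b1 g) ^ (-r))) := by
    refine reach2 R (fun H _ f _ _ hy => ?_)
    rw [map_mul, map_zpow, map_zpow, zpow_neg] at hy
    have h4 := mul_inv_eq_one.1 hy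
    rw [map_mul, map_mul, map_zpow f (b2 g) p, map_zpow f (b1 g) q, h4]
  have h4 := conj2 R (FreeGroup.map (Fin.castAdd 2) S' * (b1 g)⁻¹) (b1 g ^ q * b2 g ^ (-p))
    (b1 g ^ q * (b2 g * b1 g) ^ (-r)) (b1 g)
  have e4 : b1 g * (b1 g ^ q * (b2 g * b1 g) ^ (-r)) * (b1 g)⁻¹ =
      b1 g ^ q * (b1 g * b2 g) ^ (-r) := by
    have e5 : b1 g * b2 g = b1 g * (b2 g * b1 g) * (b1 g)⁻¹ := by group
    rw [e5, conj_zpow, ← mul_assoc (b1 g) (b1 g ^ q), ← zpow_one_add, add_comm 1 q, zpow_add_one]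
    simp only [mul_assoc]
  rw [e4] at h4
  exact ((h1.trans h2).trans h3).trans h4

/-- `⟨a_1, ..., a_g, b_1, b_2 | R_1, ..., R_h, S (b_1 b_2)⁻¹, b_1^p b_2^(-q), b_1^p (b_1 b_2)^(-r)⟩` -/
lemma third (p q r : ℤ) (S' : FreeGroup (Fin g)) :
    Reach (T R (FreeGroup.map (Fin.castAdd 2) S' * (b1 g * b2 g)⁻¹) (b1 g ^ p * b2 g ^ (-q))
        (b1 g ^ p * (b1 g * b2 g) ^ (-r)))
      (T R (FreeGroup.map (Fin.castAdd 2) S' * (b1 g)⁻¹) (b1 g ^ r * b2 g ^ (-(-p)))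
        (b1 g ^ r * (b1 g * b2 g) ^ (-q))) := by
  have h1 := tw_T R (FreeGroup.map (Fin.castAdd 2) S' * (b1 g * b2 g)⁻¹) (b1 g ^ p * b2 g ^ (-q))
    (b1 g ^ p * (b1 g * b2 g) ^ (-r))
  simp only [map_mul, map_inv, map_zpow, tw_b1, tw_b2, tw_cast] at h1
  have e1 : (b1 g)⁻¹ * (b1 g * b2 g) = b2 g := by group
  have e2 : (b1 g)⁻¹ ^ p = b1 g ^ (-p) := by rw [inv_zpow, zpow_neg]
  rw [e1, e2] at h1
  have h2 := swap12 R (FreeGroup.map (Fin.castAdd 2) S' * (b2 g)⁻¹)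
    (b1 g ^ (-p) * (b1 g * b2 g) ^ (-q)) (b1 g ^ (-p) * b2 g ^ (-r))
  exact (h1.trans h2).trans (second R (-p) r q S')

end Vertex

end Pool.Agent.H380BT
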